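import Pool.Agent.H89.CMC.Targets2

/-!
# Stage 2: the twisted second moment over a box (row BOXm)
-/

set_option autoImplicit false
set_option linter.unusedVariables false

open MeasureTheory Set Filter NumberField NumberField.InfinitePlace
open scoped Real

namespace Pool.Agent.H89.CMC

open Pool.Agent.H65.CM4 Pool.Agent.H65.CMC Pool.Agent.H89.CM4

variable (k : Type) [Field k] [NumberField k] [IsTotallyReal k]

theorem hm_add {k : Type} [Field k] [NumberField k] (j n : ℕ) (m : Pl k → ℤ) (s : ℂ) :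
    hm (j + n) m s ^ 2 = Tm m s ^ (2 * n) * hm j m s ^ 2 := by
  unfold hm
  rw [pow_add, pow_mul']
  ring

theorem pf_BOXm (hCEL : T_CELm k) (hCVR : T_CVR k) (hEMB : T_EMB k) (hTMB : T_TMB k) : T_BOXm k := by
  classical
  intro R b B hAdm hB ε hε
  have hn : 1 ≤ dg k := hEMB.2.1
  obtain ⟨C₀, hC₀, hCVR⟩ := hCVR B hB
  have hB0 : 0 < B := by linarith
  have hC00 : 0 < C₀ := by linarith
  have hB1 : 1 ≤ C₀ * B := by nlinarith
  obtain ⟨κ, hκ0, hκ1, δ, hδ0, hδ1, hδ2, K, C, j, hK, hC, hCEL⟩ :=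
    hCEL R b (C₀ * B) hAdm hB1 (ε / 8) (by linarith)
  refine ⟨κ, hκ0, hκ1, δ, hδ0, hδ1, 2 * C₀ * K ^ (2 * dg k) * C, j + dg k, by positivity, ?_⟩
  intro s m y r A α M S hs hy hr hry hA hAy hα hM hS
  have hy0 : 0 < y := by linarith
  have hr0 : 0 < r := by linarith
  have hK0 : 0 < K := by linarith
  obtain ⟨hT, -, -, -, -, hhm⟩ := hTMB m s
  have hT0 : 0 < Tm m s := by linarith
  have hKT : 1 ≤ K * Tm m s := by nlinarith
  set d₁ : ℝ := y ^ (-δ) with hd₁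
  set d₂ : ℝ := (K * Tm m s)⁻¹ with hd₂
  have hd₁0 : 0 < d₁ := by positivity
  have hd₂0 : 0 < d₂ := by positivity
  have hd₁1 : d₁ ≤ 1 := Real.rpow_le_one_of_one_le_of_nonpos hy (by linarith)
  have hd₂1 : d₂ ≤ 1 := inv_le_one_of_one_le₀ hKT
  obtain ⟨f, hf1, hf2⟩ := hCVR y r d₁ d₂ S hy hr hry hd₁0 hd₁1 hd₂0 hd₂1 hS
  set X : ℝ := C₀ * d₁⁻¹ ^ (3 * dg k) * d₂⁻¹ ^ (2 * dg k) with hX
  have hX1 : 1 ≤ X := by
    have h1 : 1 ≤ d₁⁻¹ ^ (3 * dg k) := one_le_pow₀ ((one_le_inv₀ hd₁0).2 hd₁1)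
    have h2 : 1 ≤ d₂⁻¹ ^ (2 * dg k) := one_le_pow₀ ((one_le_inv₀ hd₂0).2 hd₂1)
    have h3 : 1 ≤ C₀ * d₁⁻¹ ^ (3 * dg k) := by nlinarith
    rw [hX]
    nlinarith
  have hXeq : X = C₀ * (y ^ (3 * dg k * δ) * (K ^ (2 * dg k) * Tm m s ^ (2 * dg k))) := by
    rw [hX, hd₁, hd₂, inv_inv, mul_pow, ← Real.rpow_neg hy0.le, neg_neg, ← Real.rpow_natCast,
      ← Real.rpow_mul hy0.le, mul_assoc]
    congr 3
    push_cast
    ring
  set Yb : ℝ := C * hm j m s ^ 2 * y ^ (dg k * (3 + ε / 8)) * r ^ dg k * A with hYb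
  have hYb0 : 0 ≤ Yb := by positivity
  have hmaps : ∀ Q ∈ S, f Q ∈ Finset.range (⌊X⌋₊ + 1) := by
    intro Q hQ
    rw [Finset.mem_range, Nat.lt_succ_iff]
    exact Nat.le_floor (hf1 Q hQ)
  have hfib : ∀ i ∈ Finset.range (⌊X⌋₊ + 1), ∑ Q ∈ S.filter (fun Q => f Q = i),
      ‖Bm s m α b A M Q‖ ^ 2 ≤ Yb := by
    intro i _
    rcases (S.filter (fun Q => f Q = i)).eq_empty_or_nonempty with h | ⟨Q₀, hQ₀⟩
    · rw [h, Finset.sum_empty]
      exact hYb0
    · rw [Finset.mem_filter] at hQ₀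
      obtain ⟨hQ₀S, hQ₀i⟩ := hQ₀
      obtain ⟨hG, hz, hcl⟩ := hf2 Q₀ hQ₀S
      refine hCEL s m y r A (zx Q₀) (zy Q₀) (rl Q₀) α M _ hs hy hr (hry.trans ?_) hA hAy hα hG hM
        ?_ ?_
      · have : B * y ≤ C₀ * B * y := by
          have : B ≤ C₀ * B := le_mul_of_one_le_left hB0.le hC₀
          nlinarith
        exact this
      · intro v
        obtain ⟨h1, h2, h3⟩ := hz v
        have h4 : C₀ * r ≤ C₀ * B * r := by
          have : C₀ ≤ C₀ * B := le_mul_of_one_le_right hC00.le hB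
          nlinarith
        refine ⟨h1.trans h4, le_trans ?_ h2, h3.trans h4⟩
        apply div_le_div_of_nonneg_left hr0.le hC00
        exact le_mul_of_one_le_right hC00.le hB
      · intro Q hQ
        rw [Finset.mem_filter] at hQ
        obtain ⟨hQS, hQi⟩ := hQ
        obtain ⟨h1, h2⟩ := hcl Q hQS (hQ₀i.trans hQi.symm)
        refine ⟨?_, h1.trans (le_of_eq ?_), ?_⟩
        · intro v
          obtain ⟨h3, -, -, h4, -⟩ := hS Q hQS v
          exact ⟨lt_of_lt_of_le (by positivity) h3, lt_of_lt_of_le (by positivity) h4⟩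
        · rw [hd₁, mul_pow, ← Real.rpow_natCast, ← Real.rpow_mul hy0.le, ← Real.rpow_natCast,
            ← Real.rpow_add hy0]
          congr 1
          push_cast
          ring
        · intro v
          obtain ⟨h3, h4⟩ := h2 v
          have h5 : K * Tm m s * (d₂ * r) = r := by
            rw [hd₂]
            field_simp
          constructor
          · calc K * Tm m s * |zx Q v - zx Q₀ v| ≤ K * Tm m s * (d₂ * r) := by
                  gcongr
              _ = r := h5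
          · calc K * Tm m s * |zy Q v - zy Q₀ v| ≤ K * Tm m s * (d₂ * r) := by
                  gcongr
              _ = r := h5
  rw [← Finset.sum_fiberwise_of_maps_to hmaps]
  refine (Finset.sum_le_sum hfib).trans ?_
  rw [Finset.sum_const, Finset.card_range, nsmul_eq_mul]
  have hcard : ((⌊X⌋₊ + 1 : ℕ) : ℝ) ≤ 2 * X := by
    have := Nat.floor_le (show 0 ≤ X by linarith)
    push_cast
    linarith
  have hyp : y ^ (3 * dg k * δ) * y ^ (dg k * (3 + ε / 8)) ≤ y ^ (dg k * (3 + ε)) := by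
    rw [← Real.rpow_add hy0]
    apply Real.rpow_le_rpow_of_exponent_le hy
    have hnR : (1 : ℝ) ≤ dg k := by exact_mod_cast hn
    nlinarith
  have hht : 0 ≤ hm j m s := (hhm j).le
  calc ((⌊X⌋₊ + 1 : ℕ) : ℝ) * Yb ≤ 2 * X * Yb := by gcongr
    _ = 2 * C₀ * K ^ (2 * dg k) * C * (Tm m s ^ (2 * dg k) * hm j m s ^ 2) *
        (y ^ (3 * dg k * δ) * y ^ (dg k * (3 + ε / 8))) * r ^ dg k * A := by
        rw [hXeq, hYb]
        ring
    _ ≤ 2 * C₀ * K ^ (2 * dg k) * C * (Tm m s ^ (2 * dg k) * hm j m s ^ 2) *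
        y ^ (dg k * (3 + ε)) * r ^ dg k * A := by gcongr
    _ = _ := by rw [hm_add]

end Pool.Agent.H89.CMC
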