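import Pool.Agent.H89.CMC.Targets2
import Pool.Agent.H89.CM4.CEL

/-!
# Stage 2: the twisted second moment over a cell (row CELm)
-/

set_option autoImplicit false
set_option linter.unusedVariables false

open MeasureTheory Set Filter NumberField NumberField.InfinitePlace
open scoped Real

namespace Pool.Agent.H89.CMC

open Pool.Agent.H65.CM4 Pool.Agent.H65.CMC Pool.Agent.H89.CM4

variable (k : Type) [Field k] [NumberField k] [IsTotallyReal k]

theorem Rm_iff {k : Type} [Field k] [NumberField k] {B K r T : ℝ} {x y : Pl k → ℂ} (hT : 1 ≤ T) :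
    Rm B K r T x y ↔ Rg B K r (T - 1) x y := by
  unfold Rm Rg
  rw [abs_of_nonneg (show 0 ≤ T - 1 by linarith), add_sub_cancel]

theorem pf_CELm (hCAS : T_CAS) (hFZC : T_FZCm k) (hCFB : T_CFBm k) (hEXP : T_EXPm k) (hLS : T_LS k)
    (hEMB : T_EMB k) (hTMB : T_TMB k) : T_CELm k := by
  classical
  intro R b B hAdm hB ε hε
  have hn : 1 ≤ dg k := hEMB.2.1
  obtain ⟨d0, hd0, hLS⟩ := hLS R B B hB hB (ε / 2) (by linarith)
  set δ := min d0 (min (1 / 8) ε) with hδdef
  have hδ0 : 0 < δ := lt_min hd0 (lt_min (by norm_num) hε)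
  have hδ1 : δ ≤ d0 := min_le_left _ _
  have hδ2 : δ ≤ 1 / 8 := (min_le_right _ _).trans (min_le_left _ _)
  have hδ3 : δ ≤ ε := (min_le_right _ _).trans (min_le_right _ _)
  set κ := min (1 / 32) (ε / 100) with hκdef
  have hκ0 : 0 < κ := lt_min (by norm_num) (by linarith)
  have hκ1 : κ ≤ 1 / 32 := min_le_left _ _
  have hκ2 : κ ≤ ε / 100 := min_le_right _ _
  have h4B : 1 ≤ 4 * B := by linarith
  have hB0 : 0 < B := by linarith
  obtain ⟨CL, hCL0, hLS⟩ := hLS δ hδ0 hδ1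
  obtain ⟨K1, hK1, hCFB⟩ := hCFB (4 * B) h4B
  obtain ⟨K2, hK2, hFZC⟩ := hFZC (4 * B) h4B
  obtain ⟨CB, j, hCB0, hCFB⟩ := hCFB b κ hAdm.1 hκ0 hκ1
  set K₀ := max K1 K2 with hK₀
  have hK₀1 : 1 ≤ K₀ := hK1.trans (le_max_left _ _)
  have hK₀0 : 0 < K₀ := by linarith
  set N := Fintype.card (Pl k ⊕ Pl k) with hN
  refine ⟨κ, hκ0, hκ1, δ, hδ0, hδ2, hδ3, 32 * B * K₀, 4 ^ N * CL * CB * B ^ dg k, j,
    by nlinarith, by positivity, ?_⟩
  intro s m y r A c₁ c₂ P α M S hs hy hr hry hA hAy hα hP hM hc hS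
  obtain ⟨hT1, -, hcG, -, -, hhm⟩ := hTMB m s
  have hTt : 1 + |Tm m s - 1| = Tm m s := by
    rw [abs_of_nonneg (show 0 ≤ Tm m s - 1 by linarith), add_sub_cancel]
  have hy0 : 0 < y := by linarith
  have hr0 : 0 < r := by linarith
  have hs1 : |s.re - 1 / 2| ≤ 1 / 8 := hs.trans (by linarith)
  obtain ⟨hs2, hs3⟩ := abs_le.1 hs1
  have hT0 : 0 < Tm m s := by linarith
  set f : QF k → (Pl k ⊕ Pl k → ℂ) → ℂ := fun Q w =>
    ∑ I ∈ Sq b A, ∑ L ∈ Ls I, cfm s m α b A M I L (fun v => w (Sum.inl v))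
      (fun v => w (Sum.inr v)) * (Rn I L Q : ℂ) with hf
  set a : Pl k ⊕ Pl k → ℂ := Sum.elim (fun v => (c₁ v : ℂ)) (fun v => (c₂ v : ℂ)) with ha
  set z : QF k → Pl k ⊕ Pl k → ℂ := fun Q => Sum.elim (fun v => (zx Q v : ℂ))
    (fun v => (zy Q v : ℂ)) with hz
  have hBF : ∀ Q ∈ S, Bm s m α b A M Q = f Q (z Q) := by
    intro Q hQ
    rw [hEXP b m M s α A Q hAdm.1 hM (by linarith) (by linarith) hA (hS Q hQ).1]
    rfl
  set R₀ : ℝ := r / (32 * B * K₀ * Tm m s) with hR₀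
  have hR₀0 : 0 < R₀ := by positivity
  have hball : ∀ w : Pl k ⊕ Pl k → ℂ, (∀ v, ‖w v - a v‖ ≤ 2 * R₀) →
      Rm (4 * B) K₀ r (Tm m s) (fun v => w (Sum.inl v)) (fun v => w (Sum.inr v)) := by
    intro w hw
    rw [Rm_iff hT1]
    refine Rg_of_ball hB hK₀1 hr hc (fun v => ?_) (fun v => ?_)
    · rw [hTt]
      exact hw (Sum.inl v)
    · rw [hTt]
      exact hw (Sum.inr v)
  have hht : 0 ≤ hm j m s := (hhm j).le
  set Mc : ℝ := CB * hm j m s ^ 2 * A * (B ^ dg k * y ^ (dg k * (ε / 2))) with hMc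
  have hMc0 : 0 ≤ Mc := by positivity
  have key := hCAS (QF k) (Pl k ⊕ Pl k) S f a R₀ (CL * y ^ (dg k * (3 + ε / 2)) * r ^ dg k * Mc) z
    hR₀0
    (by
      intro Q hQ w hw v
      have hRg := (Rm_iff hT1).2 (Rg_mono (le_max_right K1 K2) ((Rm_iff hT1).1 (hball w hw)))
      have e1 : (fun u : Pl k => Function.update w v (w v) (Sum.inl u)) =
        fun u => w (Sum.inl u) := by rw [Function.update_eq_self]
      have e2 : (fun u : Pl k => Function.update w v (w v) (Sum.inr u)) =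
        fun u => w (Sum.inr u) := by rw [Function.update_eq_self]
      rw [← e1, ← e2] at hRg
      refine DifferentiableAt.fun_sum fun I hI => DifferentiableAt.fun_sum fun L hL =>
        DifferentiableAt.mul_const ?_ _
      exact hFZC b r A m M s α I L
        (fun ζ u => Function.update w v ζ (Sum.inl u)) (fun ζ u => Function.update w v ζ (Sum.inr u))
        (w v) hAdm.1 hM hr0 hI hL hs1 (fun u => comp_diff w v (Sum.inl u))
        (fun u => comp_diff w v (Sum.inr u)) hRg)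
    (by
      intro Q hQ v
      obtain ⟨-, -, h3⟩ := hS Q hQ
      rcases v with v | v
      · have h4 := (h3 v).1
        change ‖(zx Q v : ℂ) - (c₁ v : ℂ)‖ ≤ R₀
        rw [← Complex.ofReal_sub, Complex.norm_real, Real.norm_eq_abs, hR₀,
          le_div_iff₀ (by positivity)]
        linarith
      · have h4 := (h3 v).2
        change ‖(zy Q v : ℂ) - (c₂ v : ℂ)‖ ≤ R₀
        rw [← Complex.ofReal_sub, Complex.norm_real, Real.norm_eq_abs, hR₀,
          le_div_iff₀ (by positivity)]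
        linarith)
    (by
      intro w hw
      have hRg := (Rm_iff hT1).2 (Rg_mono (le_max_left K1 K2)
        ((Rm_iff hT1).1 (hball w (fun v => (hw v).le))))
      exact hLS b y r A Mc P S (fun I L => cfm s m α b A M I L (fun v => w (Sum.inl v))
        (fun v => w (Sum.inr v))) hAdm hy hr hry hA hAy hMc0 hP (fun Q hQ => (hS Q hQ).2.1) (by
          intro I hI L hL
          refine (hCFB m M s α A r I L _ _ hM hs hα hA hr hI hL hRg).trans ?_
          have hp := pow_bound2 hn hB hy hr hry hA (by linarith) hAy hκ0 hκ1 hκ2 hε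
          rw [hMc]
          gcongr))
  have hsum : ∑ Q ∈ S, ‖Bm s m α b A M Q‖ ^ 2 = ∑ Q ∈ S, ‖f Q (z Q)‖ ^ 2 :=
    Finset.sum_congr rfl fun Q hQ => by rw [hBF Q hQ]
  rw [hsum]
  refine key.trans (le_of_eq ?_)
  have hyp : y ^ (dg k * (3 + ε / 2)) * y ^ (dg k * (ε / 2)) = y ^ (dg k * (3 + ε)) := by
    rw [← Real.rpow_add hy0]
    congr 1
    ring
  rw [hMc, ← hyp]
  ring

end Pool.Agent.H89.CMC
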