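import Pool.Agent.H89.CMC.Targets2

/-!
# Stage 2: the size of the parameters (row TMB)
-/

set_option autoImplicit false
set_option linter.unusedVariables false

open MeasureTheory Set Filter NumberField NumberField.InfinitePlace
open scoped Real

namespace Pool.Agent.H89.CMC

open Pool.Agent.H65.CM4 Pool.Agent.H65.CMC Pool.Agent.H89.CM4

variable (k : Type) [Field k] [NumberField k] [IsTotallyReal k]

theorem pf_TMB : T_TMB k := by
  intro m s
  have hms : 0 ≤ ms m := Finset.sum_nonneg fun v _ => abs_nonneg _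
  have h1 : 1 ≤ Tm m s := by
    unfold Tm
    linarith [abs_nonneg s.im]
  have hcG : 0 < cG m s.im := by
    unfold cG
    refine Finset.prod_pos fun v _ => ?_
    rw [norm_pos_iff]
    apply Complex.Gamma_ne_zero_of_re_pos
    simp only [Complex.add_re, Complex.mul_re, Complex.ofReal_re, Complex.I_re, mul_zero,
      Complex.ofReal_im, Complex.I_im, mul_one, sub_self, add_zero, Complex.intCast_re]
    have h2 : (0 : ℝ) ≤ ((|m v| : ℤ) : ℝ) := by exact_mod_cast abs_nonneg (m v)
    have h3 : (1 / 2 : ℂ).re = 1 / 2 := by norm_num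
    rw [h3]
    linarith
  refine ⟨h1, ?_, hcG, ?_, ?_, fun j => ?_⟩
  · unfold Tm
    linarith
  · unfold cG
    refine Finset.prod_congr rfl fun v _ => ?_
    have h3 : (1 / 2 + ((|m v| : ℤ) : ℂ) + ((1 - s).im : ℝ) * Complex.I) =
        (starRingEnd ℂ) (1 / 2 + ((|m v| : ℤ) : ℂ) + (s.im : ℝ) * Complex.I) := by
      apply Complex.ext <;> simp
    rw [h3, Complex.Gamma_conj, RCLike.norm_conj]
  · unfold Tm
    simp
  · unfold hm
    have : 0 < Tm m s := by linarith
    positivity

end Pool.Agent.H89.CMC
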