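import Pool.Agent.H31.CMC.HEC
import Pool.Agent.H31.CMC.TRI
import Pool.Agent.H38.CMC.FZC
import Pool.Agent.H39.CMC.CFB
import Pool.Agent.H40.CMC.EXP
import Pool.Agent.H55.CMC.ANR
import Pool.Agent.H56.CMC.QCM
import Pool.Agent.H72.CMC.HE1
import Pool.Agent.H72.CMC.TM
import Pool.Agent.H77.CMC.ECB
import Pool.Agent.H77.CMC.ECC
import Pool.Agent.H89.CMC.BOX
import Pool.Agent.H89.CMC.CEL
import Pool.Agent.H89.CMC.RDB
import Pool.Agent.H89.CMC.TMB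
import Pool.Agent.H61.CMC1.AsmE1
import Pool.Agent.H89.CM4.Asm
import Pool.Agent.H89.CMC.Targets2

/-!
# Assembly
-/

set_option autoImplicit false

open MeasureTheory Set Filter NumberField NumberField.InfinitePlace
open scoped Real

namespace Pool.Agent.H89.CMC

open Pool.Agent.H65.CM4 Pool.Agent.H65.CMC Pool.Agent.H89.CM4

theorem e_EANR (k : Type) [Field k] [NumberField k] [IsTotallyReal k] : T_ANR k :=
  Pool.Agent.H55.CMC.pf_ANR k 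

theorem e_EHE1 (k : Type) [Field k] [NumberField k] [IsTotallyReal k] : T_HE1m k :=
  Pool.Agent.H72.CMC.pf_HE1m k (Pool.Agent.H61.CMC1.e_EZAm k) (Pool.Agent.H89.CM4.e_BCNL k) (Pool.Agent.H89.CM4.e_BIXC k) (Pool.Agent.H89.CM4.e_BQZR k) (Pool.Agent.H65.CM4.a_CRT k) (Pool.Agent.H65.CM4.a_FLS k) (Pool.Agent.H65.CM4.a_IDC k)

theorem e_EHEC (k : Type) [Field k] [NumberField k] [IsTotallyReal k] : T_HECm k :=
  Pool.Agent.H31.CMC.pf_HECm k (e_EHE1 k) (Pool.Agent.H61.CMC1.e_EZAm k) (Pool.Agent.H89.CM4.e_BIXC k) (Pool.Agent.H65.CM4.a_FLS k) (Pool.Agent.H65.CM4.a_CRT k)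

theorem e_EQCM (k : Type) [Field k] [NumberField k] [IsTotallyReal k] : T_QCM k :=
  Pool.Agent.H56.CMC.pf_QCM k (Pool.Agent.H89.CM4.e_BQCB k)

theorem e_ETMB (k : Type) [Field k] [NumberField k] [IsTotallyReal k] : T_TMB k :=
  Pool.Agent.H89.CMC.pf_TMB k 

theorem e_ETRI (k : Type) [Field k] [NumberField k] [IsTotallyReal k] : T_TRIm k :=
  Pool.Agent.H31.CMC.pf_TRIm k (Pool.Agent.H89.CM4.e_BFOR k) (Pool.Agent.H89.CM4.e_BQZR k) (e_EANR k) (Pool.Agent.H65.CM4.a_FLS k) (Pool.Agent.H65.CM4.a_IDC k)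

theorem e_EECB (k : Type) [Field k] [NumberField k] [IsTotallyReal k] : T_ECBm k :=
  Pool.Agent.H77.CMC.pf_ECBm k (Pool.Agent.H61.CMC1.e_KCBm k) (e_EQCM k) (Pool.Agent.H89.CM4.e_BLSM k) (Pool.Agent.H89.CM4.e_BBIX k) (Pool.Agent.H89.CM4.e_BDUL k) (Pool.Agent.H65.CM4.a_MIN k) (e_ETMB k)

theorem e_EECC (k : Type) [Field k] [NumberField k] [IsTotallyReal k] : T_ECCm k :=
  Pool.Agent.H77.CMC.pf_ECCm k (Pool.Agent.H61.CMC1.e_KCBm k) (Pool.Agent.H61.CMC1.e_KCDm k) (e_EQCM k) (Pool.Agent.H89.CM4.e_BLSM k) (Pool.Agent.H89.CM4.e_BBIX k) (Pool.Agent.H89.CM4.e_BDUL k) (Pool.Agent.H65.CM4.a_MIN k) (e_ETMB k)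

theorem e_EEXP (k : Type) [Field k] [NumberField k] [IsTotallyReal k] : T_EXPm k :=
  Pool.Agent.H40.CMC.pf_EXPm k (e_EHEC k) (Pool.Agent.H89.CM4.e_BIND k) (Pool.Agent.H65.CM4.a_RFM k) (Pool.Agent.H65.CM4.a_CRT k) (Pool.Agent.H65.CM4.a_FLS k) (Pool.Agent.H65.CM4.a_IDC k) (Pool.Agent.H89.CM4.e_BQZR k)

theorem e_EFZC (k : Type) [Field k] [NumberField k] [IsTotallyReal k] : T_FZCm k :=
  Pool.Agent.H38.CMC.pf_FZCm k (e_EECC k) (Pool.Agent.H89.CM4.e_BIXC k) (Pool.Agent.H65.CM4.a_IDC k)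

theorem e_ECFB (k : Type) [Field k] [NumberField k] [IsTotallyReal k] : T_CFBm k :=
  Pool.Agent.H39.CMC.pf_CFBm k (e_EECB k) (Pool.Agent.H89.CM4.e_BKMN k) (Pool.Agent.H89.CM4.e_BIXC k) (Pool.Agent.H89.CM4.e_BMNL k) (Pool.Agent.H65.CM4.a_IDC k) (Pool.Agent.H65.CM4.a_DVI k) (Pool.Agent.H65.CM4.a_EMB k) (Pool.Agent.H65.CM4.a_MIN k) (Pool.Agent.H65.CM4.a_FLS k) (e_ETMB k)

theorem e_ECEL (k : Type) [Field k] [NumberField k] [IsTotallyReal k] : T_CELm k :=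
  Pool.Agent.H89.CMC.pf_CELm k Pool.Agent.H89.CM4.e_BCAS (e_EFZC k) (e_ECFB k) (e_EEXP k) (Pool.Agent.H65.CM4.a_LS k) (Pool.Agent.H65.CM4.a_EMB k) (e_ETMB k)

theorem e_EBOX (k : Type) [Field k] [NumberField k] [IsTotallyReal k] : T_BOXm k :=
  Pool.Agent.H89.CMC.pf_BOXm k (e_ECEL k) (Pool.Agent.H89.CM4.e_BCVR k) (Pool.Agent.H65.CM4.a_EMB k) (e_ETMB k)

theorem e_ERDB (k : Type) [Field k] [NumberField k] [IsTotallyReal k] : T_RDBm k :=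
  Pool.Agent.H89.CMC.pf_RDBm k (e_EBOX k) (e_ETRI k) (Pool.Agent.H65.CM4.a_LOW k) (Pool.Agent.H65.CM4.a_BXC k) (Pool.Agent.H65.CM4.a_EMB k)

theorem e_ETM : T_TMm :=
  Pool.Agent.H72.CMC.pf_TMm (fun (k : Type) [Field k] [NumberField k] [IsTotallyReal k] => e_ERDB k) (fun (k : Type) [Field k] [NumberField k] [IsTotallyReal k] => Pool.Agent.H89.CM4.e_BFML k) (fun (k : Type) [Field k] [NumberField k] [IsTotallyReal k] => Pool.Agent.H65.CM4.a_CHX k) (fun (k : Type) [Field k] [NumberField k] [IsTotallyReal k] => Pool.Agent.H65.CM4.a_EMB k)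

end Pool.Agent.H89.CMC
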